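import Pool.Agent.Helper94_DMI.Stmts

/-! Squad DMI: module DM1 -/

set_option autoImplicit false

namespace Pool.Agent.DMI.H38

open Set Topology TopologicalSpace Filter

variable {X : Type} [TopologicalSpace X]

/-- basic sets -/
def bs (U P : Set X) (i0 : ℕ) : Set (Dbl X) :=
  {q | (∃ x, q = Sum.inl x ∧ x ∈ U) ∨ (∃ x i, q = Sum.inr (x, i) ∧ x ∈ P ∧ i0 ≤ i)}

lemma isOpen_iff (W : Set (Dbl X)) : IsOpen W ↔
    ∀ x : X, (Sum.inl x : X ⊕ (X × ℕ)) ∈ W → ∃ U : Set X, IsOpen U ∧ x ∈ U ∧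
    ∃ i0 : ℕ, ∀ x' ∈ U, (Sum.inl x' : X ⊕ (X × ℕ)) ∈ W ∧
      ∀ i, i0 ≤ i → (Sum.inr (x', i) : X ⊕ (X × ℕ)) ∈ W := Iff.rfl

lemma isOpen_bs (U P : Set X) (i0 : ℕ) (hU : IsOpen U) (hUP : U ⊆ P) : IsOpen (bs U P i0) := by
  rw [isOpen_iff]
  rintro x (⟨x', hx', hxU⟩ | ⟨x', i, hx', _, _⟩)
  · have : x = x' := Sum.inl_injective hx'
    subst this
    exact ⟨U, hU, hxU, i0, fun y hy => ⟨Or.inl ⟨y, rfl, hy⟩,
      fun i hi => Or.inr ⟨y, i, rfl, hUP hy, hi⟩⟩⟩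
  · exact absurd hx' (by exact Sum.inl_ne_inr)

lemma isOpen_singleton_inr (p : X × ℕ) : IsOpen ({(Sum.inr p : X ⊕ (X × ℕ))} : Set (Dbl X)) := by
  rw [isOpen_iff]
  intro x hx
  exact absurd hx (by
    intro h
    exact Sum.inl_ne_inr (Set.mem_singleton_iff.mp h))

lemma isClosed_set (P : Set X) (R : Set (X × ℕ)) (hP : IsClosed P)
    (hR : ∀ x i, (x, i) ∈ R → x ∈ P) :
    IsClosed ({q | (∃ x, q = Sum.inl x ∧ x ∈ P) ∨ (∃ p, q = Sum.inr p ∧ p ∈ R)} :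
      Set (Dbl X)) := by
  rw [← isOpen_compl_iff, isOpen_iff]
  intro x hx
  have hxP : x ∉ P := fun h => hx (Or.inl ⟨x, rfl, h⟩)
  refine ⟨Pᶜ, hP.isOpen_compl, hxP, 0, fun x' hx' => ⟨?_, fun i _ => ?_⟩⟩
  · rintro (⟨y, hy, hyP⟩ | ⟨p, hp, _⟩)
    · rw [Sum.inl_injective hy] at hx'
      exact hx' hyP
    · exact Sum.inl_ne_inr hp
  · rintro (⟨y, hy, hyP⟩ | ⟨p, hp, hpR⟩)
    · exact Sum.inr_ne_inl hy
    · rw [← Sum.inr_injective hp] at hpR
      exact hx' (hR _ _ hpR)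

lemma isClosed_inr (i : ℕ) (S : Set (X × ℕ)) (hS : ∀ p ∈ S, p.2 = i) :
    IsClosed ({q | ∃ p, q = Sum.inr p ∧ p ∈ S} : Set (Dbl X)) := by
  rw [← isOpen_compl_iff, isOpen_iff]
  intro x _
  refine ⟨Set.univ, isOpen_univ, Set.mem_univ _, i + 1, fun x' _ => ⟨?_, fun j hj => ?_⟩⟩
  · rintro ⟨p, hp, _⟩
    exact Sum.inl_ne_inr hp
  · rintro ⟨p, hp, hpS⟩
    have h1 := hS p hpS
    rw [← Sum.inr_injective hp] at h1
    simp only at h1
    omega

theorem dm1 : DM1Stmt := by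
  intro X _ _ hQB
  obtain ⟨Q, hQ, hQx⟩ := hQB
  let B : ℕ → Set (Set (Dbl X)) := fun n =>
    if n.unpair.1 = 0 then {s | ∃ x : X, s = {q | ∃ p, q = Sum.inr p ∧ p ∈ ({(x, n.unpair.2)} : Set (X × ℕ))}}
    else {s | ∃ P ∈ Q (n.unpair.1 - 1), s = bs (interior P) P n.unpair.2}
  have hB0 : ∀ i : ℕ, B (Nat.pair 0 i) =
      {s | ∃ x : X, s = {q | ∃ p, q = Sum.inr p ∧ p ∈ ({(x, i)} : Set (X × ℕ))}} := by
    intro i
    simp only [B, Nat.unpair_pair, if_true]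
    rfl
  have hB1 : ∀ m i : ℕ, B (Nat.pair (m + 1) i) = {s | ∃ P ∈ Q m, s = bs (interior P) P i} := by
    intro m i
    simp only [B, Nat.unpair_pair, Nat.add_sub_cancel]
    rw [if_neg (Nat.succ_ne_zero m)]
  have hcases : ∀ n, (∃ i, n = Nat.pair 0 i) ∨ ∃ m i, n = Nat.pair (m + 1) i := by
    intro n
    rcases Nat.eq_zero_or_pos n.unpair.1 with h | h
    · exact Or.inl ⟨n.unpair.2, by rw [← h, Nat.pair_unpair]⟩
    · refine Or.inr ⟨n.unpair.1 - 1, n.unpair.2, ?_⟩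
      have : n.unpair.1 - 1 + 1 = n.unpair.1 := by omega
      rw [this, Nat.pair_unpair]
  refine ⟨B, ?_, ?_⟩
  · apply isTopologicalBasis_of_isOpen_of_nhds
    · intro s hs
      obtain ⟨n, hn⟩ := Set.mem_iUnion.mp hs
      rcases hcases n with ⟨i, rfl⟩ | ⟨m, i, rfl⟩
      · rw [hB0] at hn
        obtain ⟨x, rfl⟩ := hn
        rw [isOpen_iff]
        rintro y ⟨p, hp, _⟩
        exact absurd hp Sum.inl_ne_inr
      · rw [hB1] at hn
        obtain ⟨P, hP, rfl⟩ := hn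
        exact isOpen_bs _ _ _ isOpen_interior interior_subset
    · intro a W ha hW
      rcases a with x | ⟨x, i⟩
      · rw [isOpen_iff] at hW
        obtain ⟨U, hU, hxU, i0, hi⟩ := hW x ha
        obtain ⟨m, P, hP, hxP, hPU⟩ := hQx x U hU hxU
        refine ⟨bs (interior P) P i0, Set.mem_iUnion.mpr ⟨Nat.pair (m + 1) i0, ?_⟩,
          Or.inl ⟨x, rfl, hxP⟩, ?_⟩
        · rw [hB1]; exact ⟨P, hP, rfl⟩
        · rintro q (⟨y, rfl, hy⟩ | ⟨y, j, rfl, hy, hj⟩)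
          · exact (hi y (hPU (interior_subset hy))).1
          · exact (hi y (hPU hy)).2 j hj
      · refine ⟨{q | ∃ p, q = Sum.inr p ∧ p ∈ ({(x, i)} : Set (X × ℕ))},
          Set.mem_iUnion.mpr ⟨Nat.pair 0 i, ?_⟩, ⟨(x, i), rfl, rfl⟩, ?_⟩
        · rw [hB0]; exact ⟨x, rfl⟩
        · rintro q ⟨p, rfl, hp⟩
          rw [Set.mem_singleton_iff] at hp
          rw [hp]; exact ha
  · intro n F hF
    apply Set.Subset.antisymm
    · rcases hcases n with ⟨i, rfl⟩ | ⟨m, i, rfl⟩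
      · rw [hB0] at hF
        have hcl : IsClosed (⋃₀ F) := by
          have h1 : ⋃₀ F = ({q | ∃ p, q = Sum.inr p ∧
              p ∈ {p : X × ℕ | p.2 = i ∧ {q : Dbl X | ∃ p', q = Sum.inr p' ∧
                p' ∈ ({(p.1, i)} : Set (X × ℕ))} ∈ F}} : Set (Dbl X)) := by
            ext q
            constructor
            · rintro ⟨s, hs, hq⟩
              obtain ⟨x, rfl⟩ := hF hs
              obtain ⟨p, rfl, hp⟩ := hq
              rw [Set.mem_singleton_iff] at hp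
              subst hp
              exact ⟨(x, i), rfl, rfl, hs⟩
            · rintro ⟨p, rfl, hp, hpF⟩
              refine ⟨_, hpF, p, rfl, ?_⟩
              rw [Set.mem_singleton_iff]
              exact Prod.ext rfl hp
          rw [h1]
          exact isClosed_inr i _ (fun p hp => hp.1)
        rw [hcl.closure_eq]
        rintro q ⟨s, hs, hq⟩
        exact Set.mem_biUnion hs (subset_closure hq)
      · rw [hB1] at hF
        set H : Set (Set X) := {P | P ∈ Q m ∧ bs (interior P) P i ∈ F} with hH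
        have hHc : IsClosed (⋃₀ H) := hQ m H (fun P hP => hP.1)
        have hC := isClosed_set (⋃₀ H) {p : X × ℕ | p.1 ∈ ⋃₀ H ∧ i ≤ p.2} hHc
          (fun x j h => h.1)
        have hsub : closure (⋃₀ F) ⊆ ({q | (∃ x, q = Sum.inl x ∧ x ∈ ⋃₀ H) ∨
            (∃ p, q = Sum.inr p ∧ p ∈ {p : X × ℕ | p.1 ∈ ⋃₀ H ∧ i ≤ p.2})} : Set (Dbl X)) := by
          apply closure_minimal _ hC
          rintro q ⟨s, hs, hq⟩
          obtain ⟨P, hP, rfl⟩ := hF hs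
          rcases hq with ⟨x, rfl, hx⟩ | ⟨x, j, rfl, hx, hj⟩
          · exact Or.inl ⟨x, rfl, P, ⟨hP, hs⟩, interior_subset hx⟩
          · exact Or.inr ⟨(x, j), rfl, ⟨P, ⟨hP, hs⟩, hx⟩, hj⟩
        refine hsub.trans ?_
        rintro q (⟨x, rfl, P, hP, hx⟩ | ⟨⟨x, j⟩, rfl, ⟨P, hP, hx⟩, hj⟩)
        · refine Set.mem_biUnion hP.2 ?_
          rw [mem_closure_iff]
          intro W hW hxW
          rw [isOpen_iff] at hW
          obtain ⟨U, hU, hxU, i0, hi⟩ := hW x hxW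
          exact ⟨Sum.inr (x, max i i0), (hi x hxU).2 _ (le_max_right _ _),
            Or.inr ⟨x, max i i0, rfl, hx, le_max_left _ _⟩⟩
        · exact Set.mem_biUnion hP.2 (subset_closure (Or.inr ⟨x, j, rfl, hx, hj⟩))
    · intro q hq
      obtain ⟨s, hs, hqs⟩ := Set.mem_iUnion₂.mp hq
      exact closure_mono (Set.subset_sUnion_of_mem hs) hqs

end Pool.Agent.DMI.H38
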