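import Pool.Agent.Helper94_DMI.Stmts

/-! Squad DMI: module SUM -/

set_option autoImplicit false

namespace Pool.Agent.DMI.H38

open Set Topology TopologicalSpace Filter

lemma step {X : Type} [TopologicalSpace X] [NormalSpace X] (F : Set X) (hF : IsClosed F)
    (hZ : Z0 F) (K L : Set X) (hK : IsClosed K) (hL : IsClosed L) (hd : Disjoint K L) :
    ∃ K' L' : Set X, IsClosed K' ∧ IsClosed L' ∧ Disjoint K' L' ∧ K ⊆ interior K' ∧
      L ⊆ interior L' ∧ F ⊆ interior K' ∪ interior L' := by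
  obtain ⟨C, hC, hKC, hCL⟩ := hZ (Subtype.val ⁻¹' K) (Subtype.val ⁻¹' L)
    (hK.preimage continuous_subtype_val) (hL.preimage continuous_subtype_val)
    (hd.preimage _)
  have hemb : IsClosedMap (Subtype.val : F → X) := hF.isClosedEmbedding_subtypeVal.isClosedMap
  have hP : IsClosed (Subtype.val '' C) := hemb _ hC.isClosed
  have hP' : IsClosed (Subtype.val '' Cᶜ) := hemb _ hC.compl.isClosed
  have hA : IsClosed (K ∪ Subtype.val '' C) := hK.union hP
  have hB : IsClosed (L ∪ Subtype.val '' Cᶜ) := hL.union hP'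
  have hAB : Disjoint (K ∪ Subtype.val '' C) (L ∪ Subtype.val '' Cᶜ) := by
    rw [Set.disjoint_left]
    rintro x (hx | ⟨y, hy, rfl⟩) (hx' | ⟨z, hz, hzx⟩)
    · exact Set.disjoint_left.mp hd hx hx'
    · exact hz (hKC (show z.1 ∈ K by rw [hzx]; exact hx))
    · exact Set.disjoint_left.mp hCL hy hx'
    · exact hz (by rw [Subtype.ext hzx]; exact hy)
  obtain ⟨u, hu, hAu, huB⟩ := normal_exists_closure_subset hA hB.isOpen_compl
    (Set.disjoint_left.mp hAB)
  obtain ⟨v, hv, hBv, hvu⟩ := normal_exists_closure_subset hB isClosed_closure.isOpen_compl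
    (fun x hx hx' => huB hx' hx)
  have hui : u ⊆ interior (closure u) := interior_maximal subset_closure hu
  have hvi : v ⊆ interior (closure v) := interior_maximal subset_closure hv
  refine ⟨closure u, closure v, isClosed_closure, isClosed_closure, ?_, ?_, ?_, ?_⟩
  · rw [Set.disjoint_left]
    intro x hx hx'
    exact hvu hx' hx
  · exact fun x hx => hui (hAu (Or.inl hx))
  · exact fun x hx => hvi (hBv (Or.inl hx))
  · intro x hx
    by_cases hc : (⟨x, hx⟩ : F) ∈ C
    · exact Or.inl (hui (hAu (Or.inr ⟨⟨x, hx⟩, hc, rfl⟩)))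
    · exact Or.inr (hvi (hBv (Or.inr ⟨⟨x, hx⟩, hc, rfl⟩)))

theorem sum : SumStmt := by
  intro X _ _ Fs hFc hFU hZ K L hK hL hd
  let St := {p : Set X × Set X // IsClosed p.1 ∧ IsClosed p.2 ∧ Disjoint p.1 p.2}
  have hstep : ∀ (n : ℕ) (s : St), ∃ s' : St, s.1.1 ⊆ interior s'.1.1 ∧
      s.1.2 ⊆ interior s'.1.2 ∧ Fs n ⊆ interior s'.1.1 ∪ interior s'.1.2 := by
    intro n s
    obtain ⟨K', L', h1, h2, h3, h4, h5, h6⟩ := step (Fs n) (hFc n) (hZ n) s.1.1 s.1.2 s.2.1 s.2.2.1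
      s.2.2.2
    exact ⟨⟨(K', L'), h1, h2, h3⟩, h4, h5, h6⟩
  choose st hst using hstep
  let sq : ℕ → St := fun n => Nat.rec ⟨(K, L), hK, hL, hd⟩ (fun n s => st n s) n
  have hsq : ∀ n, sq (n + 1) = st n (sq n) := fun n => rfl
  have h1 : ∀ n, (sq n).1.1 ⊆ interior (sq (n + 1)).1.1 := by
    intro n; rw [hsq]; exact (hst n (sq n)).1
  have h2 : ∀ n, (sq n).1.2 ⊆ interior (sq (n + 1)).1.2 := by
    intro n; rw [hsq]; exact (hst n (sq n)).2.1
  have h3 : ∀ n, Fs n ⊆ interior (sq (n + 1)).1.1 ∪ interior (sq (n + 1)).1.2 := by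
    intro n; rw [hsq]; exact (hst n (sq n)).2.2
  have m1 : Monotone fun n => (sq n).1.1 :=
    monotone_nat_of_le_succ fun n => (h1 n).trans interior_subset
  have m2 : Monotone fun n => (sq n).1.2 :=
    monotone_nat_of_le_succ fun n => (h2 n).trans interior_subset
  have hcov : ∀ x : X, x ∈ (⋃ n, interior (sq n).1.1) ∨ x ∈ (⋃ n, interior (sq n).1.2) := by
    intro x
    have hx : x ∈ ⋃ i, Fs i := by rw [hFU]; exact Set.mem_univ _
    obtain ⟨i, hi⟩ := Set.mem_iUnion.mp hx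
    rcases h3 i hi with h | h
    · exact Or.inl (Set.mem_iUnion.mpr ⟨i + 1, h⟩)
    · exact Or.inr (Set.mem_iUnion.mpr ⟨i + 1, h⟩)
  have hdis : Disjoint (⋃ n, interior (sq n).1.1) (⋃ n, interior (sq n).1.2) := by
    rw [Set.disjoint_left]
    intro x hx hx'
    obtain ⟨i, hi⟩ := Set.mem_iUnion.mp hx
    obtain ⟨j, hj⟩ := Set.mem_iUnion.mp hx'
    exact Set.disjoint_left.mp (sq (max i j)).2.2.2
      (m1 (le_max_left i j) (interior_subset hi)) (m2 (le_max_right i j) (interior_subset hj))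
  have ho1 : IsOpen (⋃ n, interior (sq n).1.1) := isOpen_iUnion fun n => isOpen_interior
  have ho2 : IsOpen (⋃ n, interior (sq n).1.2) := isOpen_iUnion fun n => isOpen_interior
  have hcompl : (⋃ n, interior (sq n).1.1)ᶜ = ⋃ n, interior (sq n).1.2 := by
    ext x
    constructor
    · intro hx
      exact (hcov x).resolve_left hx
    · intro hx hx'
      exact Set.disjoint_left.mp hdis hx' hx
  refine ⟨⋃ n, interior (sq n).1.1, ⟨?_, ho1⟩, ?_, ?_⟩
  · rw [← isOpen_compl_iff, hcompl]; exact ho2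
  · intro x hx
    exact Set.mem_iUnion.mpr ⟨1, h1 0 hx⟩
  · rw [Set.disjoint_left]
    intro x hx hx'
    exact Set.disjoint_left.mp hdis hx (Set.mem_iUnion.mpr ⟨1, h2 0 hx'⟩)

end Pool.Agent.DMI.H38
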